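import Pool.Agent.H583_U.U7
import Pool.Agent.H583_GQ.Mod

/-!
MP_160ed4_ag, Q1: the conditions of the generalized Green-Griffiths-Lang conjecture for the
complements of fibres in the abelian covers of products of projective lines.

`Branch` (`Pool/Agent/H583_GP/Defs.lean`): the branch data of an abelian cover of `(ℙ¹)ᴺ` with the
equations `w l ^ m l = ∏ (x i - a i j) ^ e l i j`; `Branch.Cover`: `L` is the function field of a
component of the cover; `Branch.Adm`: the possible vectors of multiplicities `k i j` of the values
`a i j` of the functions `x i` at a point of a curve in the cover. `AdmO` (`H583_GQ/Defs.lean`): those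
with `k i j = 0` for `j ∈ O i`. `Wide`: the numerical condition for a set of vectors of
multiplicities. `y` is the generic point of a projective model of `L`, in homogeneous coordinates
(`coords ℂ y = ⊤`: their ratios generate `L`). `In`, `CentreIn`: a point, or the centre of a discrete
valuation, lies in the closed set `D = 0`, where `D` is a set of forms. `Fibres`: the closed set
`D = 0` is the union of the fibres of the `x i` over the `a i j`, `j ∈ O i`. `LogGT`, `StronglyLog`,
`PseudoPicard`, `PseudoBrody`, `PseudoGm`: the conditions (1), (2), (3), (4), and the condition for the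
images of the multiplicative group, for the complement of `D = 0` in the projective model; the
condition (5) of the problem lies between the last two.
-/

set_option autoImplicit false

namespace Pool.Agent.Results.MP_160ed4_ag.OpenProductLineCovers

open Pool.Agent.H583_GP (Branch)
open Pool.Agent.H583_GQ Pool.Agent.W602.GT

/-- Let `L` be the function field of a component of the abelian cover of `(ℙ¹)ᴺ`, `N ≥ 1`, with the
branch data `B`, and let `O i` be a set of the branch points on the `i`-th line. There are projective
models in which the union of the fibres over the points of the `O i` is a closed set `D = 0`. For all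
such models the following are equivalent for the complement `X` of `D = 0`, if the multiplicities
satisfy `Wide`, for instance if all total multiplicities are larger than
`∑ p i / max 1 (p i - 2)`: `X` is of log general type; `X` is strongly of log general type; `X` is
pseudo-Picard hyperbolic; `X` is pseudo-Brody hyperbolic; the images of the nonconstant morphisms from
the multiplicative group to `X` lie in a proper closed subset; there are at least three branch points
on each of the lines. -/
theorem result (N r : ℕ) (hN : 1 ≤ N) (B : Branch N r) (O : ∀ i, Set (Fin (B.p i)))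
    (L : Type) [Field L] [Algebra ℂ L] (x : Fin N → L) (w : Fin r → L) (hC : B.Cover x w) :
    (∃ (M : ℕ) (y : Fin (M + 1) → L) (D : Set (MvPolynomial (Fin (M + 1)) ℂ)),
      y ≠ 0 ∧ coords ℂ y = ⊤ ∧ ¬ In D y ∧ Fibres B.a y D x O) ∧
    ((Wide B.p (AdmO B O) ∨ ∀ k ∈ AdmO B O, k ≠ 0 →
        ∑ i, (B.p i : ℝ) / max 1 ((B.p i : ℝ) - 2) < ((∑ i, ∑ j, k i j : ℕ) : ℝ)) →
      ∀ (M : ℕ) (y : Fin (M + 1) → L) (D : Set (MvPolynomial (Fin (M + 1)) ℂ)),
        y ≠ 0 → coords ℂ y = ⊤ → ¬ In D y → Fibres B.a y D x O →
        [LogGT y D N, StronglyLog y D, PseudoPicard y D, PseudoBrody y D, PseudoGm y D,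
          ∀ i, 3 ≤ B.p i].TFAE) := by
  refine ⟨cover_model hC O, fun hW M y D hy hgen hD0 hD => ?_⟩
  exact Pool.Agent.H583_U.covers_all hC hN hy hgen hD hD0
    (hW.elim id fun h => (wideStrong_of_sum h).wide)

end Pool.Agent.Results.MP_160ed4_ag.OpenProductLineCovers
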