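import Pool.Agent.Helper568_GC.Main

/-!
# Cyclic coverings with trivial or negative canonical bundle

MP_160ed4_ag, Q1: the special sets of cyclic coverings of weighted complete intersections, of
nonpositive canonical degree, in particular of Calabi-Yau coverings, with arbitrary singularities and
in families over affine varieties.

Notation (`Pool/Agent/Helper568_GC/Defs.lean` and `Param.lean`). `Cov G F k` is the set of solutions
of the equations `G j (x) = 0` for all `j`, `y ^ k = F (x)` of the variety `X`; the coordinate `y` is
the first one and has the weight `m`, the coordinates `x i` have the weights `w i`. The coordinates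
of weight zero are coordinates of an affine space (the base of the family), the others are
homogeneous coordinates of a weighted projective space. `Var`: the vectors of coordinates of the
points of `X` (some coordinate of positive weight is not zero). `Kind`: the projective line, or an
elliptic curve `c² = b³ + α a⁴ b + β a⁶` in the projective plane with the weights `1, 2, 3`.
`CurveMap`: nonconstant morphisms from these curves to `X`. `EntireCurve`: nonconstant entire curves.
`EssentialMap`: maps from the punctured disc with an essential singularity. `SpCurve`, `SpEntire`,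
`SpDisc`: the Zariski closures of the unions of their images. `Irred`: `X` is irreducible.
-/

set_option autoImplicit false

namespace Pool.Agent.Results.MP_160ed4_ag.TrivialCanonicalCyclicCovers

open MvPolynomial Pool.Agent.Helper568.GC

/-- Let `X` be the cyclic covering `y ^ k = F (x)` of the variety `G j (x) = 0`, where `F` has the
weighted degree `k m` and the `G j` have the weighted degrees `d j`, such that
`∑ d j + (k - 1) m ≤ ∑ w i`: if `X` is quasismooth this means that the canonical divisor of `X`
(relative to the affine base) is trivial or negative. Suppose that `k` is divisible by `3` or by `4`,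
or that `k` is even and `m ≥ 2`. (1) Through every point of `X` with `y ≠ 0`, at which the weights of
the nonzero coordinates `x i` have no common divisor, passes the image of a nonconstant morphism from
the projective line or from an elliptic curve to `X`, and the point is in the Zariski closures of the
union of the nonconstant entire curves and of the union of the images of the holomorphic maps from
the punctured disc with an essential singularity. (2) If `X` is irreducible and has such a point
then all these closures are equal to `X`. -/
theorem result {n r : ℕ} (w : Fin n → ℕ) (d : Fin r → ℕ) (k m : ℕ) (hk : 1 ≤ k) (hm : 1 ≤ m)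
    (hkm : 3 ∣ k ∨ 4 ∣ k ∨ (2 ∣ k ∧ 2 ≤ m)) (hle : ∑ j, d j + (k - 1) * m ≤ ∑ i, w i)
    (G : Fin r → MvPolynomial (Fin n) ℂ) (hG : ∀ j, IsWeightedHomogeneous w (G j) (d j))
    (F : MvPolynomial (Fin n) ℂ) (hF : IsWeightedHomogeneous w F (k * m)) :
    (∀ v ∈ Var (Fin.cons m w) (Cov G F k), v 0 ≠ 0 →
      (∀ g : ℕ, (∀ i : Fin n, v i.succ ≠ 0 → g ∣ w i) → g = 1) →
      (∃ c Φ, CurveMap (Fin.cons m w) (Cov G F k) c Φ ∧
        ∃ P ∈ Pts c, (fun i => eval P (Φ i)) = v) ∧
      v ∈ SpCurve (Fin.cons m w) (Cov G F k) ∧
      v ∈ SpEntire (Fin.cons m w) (Cov G F k) ∧
      v ∈ SpDisc (Fin.cons m w) (Cov G F k)) ∧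
    (Irred (Fin.cons m w) (Cov G F k) →
      (∃ v ∈ Var (Fin.cons m w) (Cov G F k), v 0 ≠ 0 ∧
        ∀ g : ℕ, (∀ i : Fin n, v i.succ ≠ 0 → g ∣ w i) → g = 1) →
      SpCurve (Fin.cons m w) (Cov G F k) = Var (Fin.cons m w) (Cov G F k) ∧
      SpEntire (Fin.cons m w) (Cov G F k) = Var (Fin.cons m w) (Cov G F k) ∧
      SpDisc (Fin.cons m w) (Cov G F k) = Var (Fin.cons m w) (Cov G F k)) :=
  ⟨fun _ hv hv0 hvg => special hG hF hk hm hkm hle hv hv0 hvg,
    fun hX hne => special_all hG hF hk hm hkm hle hX hne⟩

end Pool.Agent.Results.MP_160ed4_ag.TrivialCanonicalCyclicCovers
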